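import Pool.Agent.Helper3_PPZ.Stmts

/-!
Module FAM of squad PPZ: existence of families.
-/

set_option autoImplicit false

universe u

namespace Pool.Agent.PPZ.H31

open MvPolynomial PGH PPX

/-- FAM -/
theorem fam : FamStmt.{u} := by
  intro k _ N₁ N₂ a b S hS
  have hch : ∀ F : {F : MvPolynomial (Fin 2) k // F ≠ 0}, ∃ C : BC a b, C ∈ S ∧ C.ev2 F.1 ≠ 0 :=
    fun F => by
      obtain ⟨C, hC, hF⟩ := hS F.1 F.2
      exact ⟨C, hC, hF⟩
  choose c hc hcF using hch
  obtain ⟨A, hA⟩ : ∃ A : {F : MvPolynomial (Fin 2) k // F ≠ 0} →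
      Set {F : MvPolynomial (Fin 2) k // F ≠ 0}, A = fun F => {G | F.1 ∣ G.1} := ⟨_, rfl⟩
  have hne : Nonempty {F : MvPolynomial (Fin 2) k // F ≠ 0} := ⟨⟨1, one_ne_zero⟩⟩
  have hdir : Directed (· ≥ ·) fun F => Filter.principal (A F) := by
    intro F G
    refine ⟨⟨F.1 * G.1, mul_ne_zero F.2 G.2⟩, ?_, ?_⟩
    · change Filter.principal _ ≤ Filter.principal _
      rw [Filter.principal_mono, hA]
      intro H hH
      exact (dvd_mul_right _ _).trans hH
    · change Filter.principal _ ≤ Filter.principal _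
      rw [Filter.principal_mono, hA]
      intro H hH
      exact (dvd_mul_left _ _).trans hH
  have hnb : (⨅ F, Filter.principal (A F)).NeBot := by
    refine Filter.iInf_neBot_of_directed hdir fun F => ?_
    rw [Filter.principal_neBot_iff, hA]
    exact ⟨F, dvd_rfl⟩
  refine ⟨⟨_, Ultrafilter.of (⨅ F, Filter.principal (A F)), c, ?_⟩, hc⟩
  intro F hF
  have h1 : A ⟨F, hF⟩ ∈ ((Ultrafilter.of (⨅ F, Filter.principal (A F))) : Filter _) :=
    Ultrafilter.of_le _ (Filter.mem_iInf_of_mem ⟨F, hF⟩ (Filter.mem_principal_self _))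
  filter_upwards [h1] with G hG h0
  rw [hA] at hG
  obtain ⟨H, hH⟩ := hG
  apply hcF G
  rw [hH]
  unfold BC.ev2 at *
  rw [map_mul, h0, zero_mul]

end Pool.Agent.PPZ.H31
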